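import Pool.Agent.Helper889_Cut.Final4

/-! Cuttings of simplices: a bound in terms of the number of crossing pairs. -/

set_option autoImplicit false

theorem Pool.Agent.Results.MP_2addd5_co.CrossingPairCutting.result : ∀ d : ℕ, 3 ≤ d → ∃ C : ℝ, 0 < C ∧
      ∀ n : ℕ, ∀ p : Fin n → Fin d → EuclideanSpace ℝ (Fin d),
        (∀ i, AffineIndependent ℝ (p i)) →
        ∀ r : ℝ, 1 ≤ r → r ≤ (n : ℝ) →
        ∀ X : Finset (Fin n), (X.card : ℝ) ≤ (n : ℝ) / (2 * r) →
        ∀ u : EuclideanSpace ℝ (Fin d), u ≠ 0 →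
        ∃ q : Fin (d + 1) → EuclideanSpace ℝ (Fin d), AffineIndependent ℝ q ∧
          (⋃ i, convexHull ℝ (Set.range (p i))) ⊆ convexHull ℝ (Set.range q) ∧
          ∃ k : ℕ, ∃ c : Fin k → Fin (d + 1) → EuclideanSpace ℝ (Fin d),
            (∀ j, AffineIndependent ℝ (c j)) ∧
            (⋃ j, convexHull ℝ (Set.range (c j))) = convexHull ℝ (Set.range q) ∧
            (∀ j j', j ≠ j' →
              Disjoint (interior (convexHull ℝ (Set.range (c j))))
                (interior (convexHull ℝ (Set.range (c j'))))) ∧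
            (∀ j, (({i : Fin n | (interior (convexHull ℝ (Set.range (c j))) ∩
                  convexHull ℝ (Set.range (p i))).Nonempty}.ncard : ℕ) : ℝ) ≤ (n : ℝ) / r) ∧
            (k : ℝ) ≤ C * (r + (({e : Fin n × Fin n | e.1 ∉ X ∧ e.2 ∉ X ∧ e.1 < e.2 ∧
              ¬ (u ∈ vectorSpan ℝ (Set.range (p e.1)) ∧ u ∈ vectorSpan ℝ (Set.range (p e.2))) ∧
              affineSpan ℝ (Set.range (p e.1)) ≠ affineSpan ℝ (Set.range (p e.2)) ∧
              ¬ Disjoint (intrinsicInterior ℝ (convexHull ℝ (Set.range (p e.1))))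
                (intrinsicInterior ℝ (convexHull ℝ (Set.range (p e.2))))}.ncard : ℕ) : ℝ) *
              r ^ 2 / (n : ℝ) ^ 2) ^ (d - 1) :=
  Pool.Agent.H889.final4
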